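import Pool.Agent.W886.Prim.Defs

/-!
# Primitivity of a finitely generated quasivariety: a finite criterion
-/

set_option autoImplicit false

namespace Pool.Agent.W886.Prim

/-- Homomorphisms. -/
structure IsHom (M N : Alg) (h : M.carrier → N.carrier) : Prop where
  inf : ∀ a b, h (M.inf a b) = N.inf (h a) (h b)
  sup : ∀ a b, h (M.sup a b) = N.sup (h a) (h b)
  imp : ∀ a b, h (M.imp a b) = N.imp (h a) (h b)
  zero : h M.zero = N.zero
  one : h M.one = N.one

theorem IsHom.comp {M N P : Alg} {f : M.carrier → N.carrier} {g : N.carrier → P.carrier}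
    (hg : IsHom N P g) (hf : IsHom M N f) : IsHom M P (fun x => g (f x)) :=
  ⟨fun a b => by rw [hf.inf, hg.inf], fun a b => by rw [hf.sup, hg.sup],
    fun a b => by rw [hf.imp, hg.imp], by rw [hf.zero, hg.zero], by rw [hf.one, hg.one]⟩

theorem IsHom.eval {M N : Alg} {h : M.carrier → N.carrier} (hh : IsHom M N h)
    (v : ℕ → M.carrier) (t : Tm) : h (t.eval M v) = t.eval N (fun i => h (v i)) := by
  induction t with
  | var i => rfl
  | zero => exact hh.zero
  | one => exact hh.one
  | inf s t hs ht => simp only [Tm.eval, hh.inf, hs, ht]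
  | sup s t hs ht => simp only [Tm.eval, hh.sup, hs, ht]
  | imp s t hs ht => simp only [Tm.eval, hh.imp, hs, ht]

/-- Homomorphisms from the term algebra. -/
structure TmHom (M : Alg) (f : Tm → M.carrier) : Prop where
  inf : ∀ s t, f (Tm.inf s t) = M.inf (f s) (f t)
  sup : ∀ s t, f (Tm.sup s t) = M.sup (f s) (f t)
  imp : ∀ s t, f (Tm.imp s t) = M.imp (f s) (f t)
  zero : f Tm.zero = M.zero
  one : f Tm.one = M.one

theorem tmHom_eval (M : Alg) (v : ℕ → M.carrier) : TmHom M (fun t => Tm.eval M v t) :=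
  ⟨fun _ _ => rfl, fun _ _ => rfl, fun _ _ => rfl, rfl, rfl⟩

theorem IsHom.compTm {M N : Alg} {h : M.carrier → N.carrier} (hh : IsHom M N h)
    {f : Tm → M.carrier} (hf : TmHom M f) : TmHom N (fun t => h (f t)) :=
  ⟨fun a b => by rw [hf.inf, hh.inf], fun a b => by rw [hf.sup, hh.sup],
    fun a b => by rw [hf.imp, hh.imp], by rw [hf.zero, hh.zero], by rw [hf.one, hh.one]⟩

theorem Tm.subst_var (t : Tm) : t.subst Tm.var = t := by
  induction t with
  | var i => rfl
  | zero => rfl
  | one => rfl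
  | inf s t hs ht => simp only [Tm.subst, hs, ht]
  | sup s t hs ht => simp only [Tm.subst, hs, ht]
  | imp s t hs ht => simp only [Tm.subst, hs, ht]

/-- A homomorphism from the term algebra. -/
theorem TmHom.eval_rep {M : Alg} {cl : Tm → M.carrier} (hcl : TmHom M cl)
    (σ : ℕ → Tm) (t : Tm) : t.eval M (fun i => cl (σ i)) = cl (t.subst σ) := by
  induction t with
  | var i => rfl
  | zero => exact hcl.zero.symm
  | one => exact hcl.one.symm
  | inf s t hs ht => simp only [Tm.subst, Tm.eval, hs, ht, hcl.inf]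
  | sup s t hs ht => simp only [Tm.subst, Tm.eval, hs, ht, hcl.sup]
  | imp s t hs ht => simp only [Tm.subst, Tm.eval, hs, ht, hcl.imp]

theorem TmHom.eval_var {M : Alg} {cl : Tm → M.carrier} (hcl : TmHom M cl) (t : Tm) :
    t.eval M (fun i => cl (Tm.var i)) = cl t := by
  rw [hcl.eval_rep Tm.var, Tm.subst_var]

/-- Induced homomorphisms. -/
theorem induced {M N : Alg} {cl : Tm → M.carrier} (hcl : TmHom M cl) {f : Tm → N.carrier}
    (hf : TmHom N f) (rep : M.carrier → Tm) (hrep : ∀ x, cl (rep x) = x)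
    (hr : ∀ t, f (rep (cl t)) = f t) : IsHom M N (fun x => f (rep x)) := by
  refine ⟨fun a b => ?_, fun a b => ?_, fun a b => ?_, ?_, ?_⟩
  · have h1 : M.inf a b = cl (Tm.inf (rep a) (rep b)) := by rw [hcl.inf, hrep, hrep]
    rw [h1, hr, hf.inf]
  · have h1 : M.sup a b = cl (Tm.sup (rep a) (rep b)) := by rw [hcl.sup, hrep, hrep]
    rw [h1, hr, hf.sup]
  · have h1 : M.imp a b = cl (Tm.imp (rep a) (rep b)) := by rw [hcl.imp, hrep, hrep]
    rw [h1, hr, hf.imp]
  · rw [← hcl.zero, hr, hf.zero]
  · rw [← hcl.one, hr, hf.one]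

/-- Homomorphisms to `N` separate the points of `M`. -/
def Sep (M N : Alg) : Prop :=
  ∀ x y : M.carrier, x ≠ y → ∃ h : M.carrier → N.carrier, IsHom M N h ∧ h x ≠ h y

theorem Sep.satQ {M N : Alg} (hs : Sep M N) {q : QuasiId} (h : N.SatQ q) : M.SatQ q := by
  intro v hv
  by_contra hne
  obtain ⟨f, hf, hne⟩ := hs _ _ hne
  apply hne
  rw [hf.eval, hf.eval]
  refine h _ fun p hp => ?_
  rw [← hf.eval, ← hf.eval, hv p hp]

/-- The identity `p` as a quasi-identity without premises. -/
def ofId (p : Tm × Tm) : QuasiId := ⟨[], p⟩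

theorem satQ_ofId (M : Alg) (p : Tm × Tm) : M.SatQ (ofId p) ↔ M.SatId p := by
  constructor
  · intro h v
    exact h v (by simp [ofId])
  · intro h v _
    exact h v

/-- Identities are preserved under homomorphic images. -/
theorem satId_of_surj {M N : Alg} {g : M.carrier → N.carrier} (hg : IsHom M N g)
    (gs : Function.Surjective g) {p : Tm × Tm} (h : M.SatId p) : N.SatId p := by
  intro v
  choose r hr using gs
  have h1 := h (fun i => r (v i))
  have h2 : ∀ t : Tm, t.eval N v = g (t.eval M (fun i => r (v i))) := by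
    intro t
    rw [hg.eval]
    simp only [hr]
  rw [h2, h2, h1]

/-- Members of the quasivariety generated by `N` that are finite are separated by homomorphisms
to `N`. -/
theorem sep_of_mem {M N : Alg} [Finite M.carrier] (h : M ∈ quasivarietyOf N) : Sep M N := by
  classical
  intro x y hxy
  by_contra hno
  push Not at hno
  obtain ⟨m, ⟨e⟩⟩ := Finite.exists_equiv_fin M.carrier
  let X : M.carrier → Tm := fun a => Tm.var (e a)
  let _ : Fintype M.carrier := Fintype.ofEquiv _ e.symm
  let ps : List (M.carrier × M.carrier) := (Finset.univ : Finset (M.carrier × M.carrier)).toList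
  let q : QuasiId := ⟨ps.map (fun p => (X (M.inf p.1 p.2), Tm.inf (X p.1) (X p.2))) ++
    (ps.map (fun p => (X (M.sup p.1 p.2), Tm.sup (X p.1) (X p.2))) ++
    (ps.map (fun p => (X (M.imp p.1 p.2), Tm.imp (X p.1) (X p.2))) ++
      [(X M.zero, Tm.zero), (X M.one, Tm.one)])), (X x, X y)⟩
  have hprem : ∀ (R : Alg) (w : ℕ → R.carrier),
      (∀ p ∈ q.prem, p.1.eval R w = p.2.eval R w) ↔ IsHom M R (fun a => w (e a)) := by
    intro R w
    constructor
    · intro hp
      refine ⟨fun a b => ?_, fun a b => ?_, fun a b => ?_, ?_, ?_⟩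
      · exact hp (X (M.inf a b), Tm.inf (X a) (X b)) (by
          simp only [q, List.mem_append, List.mem_map]
          exact Or.inl ⟨(a, b), by simp [ps], rfl⟩)
      · exact hp (X (M.sup a b), Tm.sup (X a) (X b)) (by
          simp only [q, List.mem_append, List.mem_map]
          exact Or.inr (Or.inl ⟨(a, b), by simp [ps], rfl⟩))
      · exact hp (X (M.imp a b), Tm.imp (X a) (X b)) (by
          simp only [q, List.mem_append, List.mem_map]
          exact Or.inr (Or.inr (Or.inl ⟨(a, b), by simp [ps], rfl⟩)))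
      · exact hp (X M.zero, Tm.zero) (by simp [q])
      · exact hp (X M.one, Tm.one) (by simp [q])
    · intro hh p hp
      simp only [q, List.mem_append, List.mem_map, List.mem_cons, List.not_mem_nil,
        or_false] at hp
      rcases hp with ⟨⟨a, b⟩, -, rfl⟩ | ⟨⟨a, b⟩, -, rfl⟩ | ⟨⟨a, b⟩, -, rfl⟩ | rfl | rfl
      · exact hh.inf a b
      · exact hh.sup a b
      · exact hh.imp a b
      · exact hh.zero
      · exact hh.one
  have hq : N.SatQ q := by
    intro w hw
    exact hno _ ((hprem N w).1 hw)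
  have h1 := h q hq (fun i => if hi : i < m then e.symm ⟨i, hi⟩ else M.zero) (by
    rw [hprem]
    have : (fun a : M.carrier => (if hi : ((e a : Fin m) : ℕ) < m then e.symm ⟨e a, hi⟩
        else M.zero)) = fun a => a := by
      funext a; simp
    rw [this]
    exact ⟨fun _ _ => rfl, fun _ _ => rfl, fun _ _ => rfl, rfl, rfl⟩)
  apply hxy
  simpa [q, X, Tm.eval] using h1

/-- Values of terms depend on finitely many variables. -/
theorem exists_bound (t : Tm) : ∃ k, ∀ (M : Alg) (v w : ℕ → M.carrier), (∀ i < k, v i = w i) →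
    t.eval M v = t.eval M w := by
  induction t with
  | var i => exact ⟨i + 1, fun M v w h => h i (Nat.lt_succ_self i)⟩
  | zero => exact ⟨0, fun _ _ _ _ => rfl⟩
  | one => exact ⟨0, fun _ _ _ _ => rfl⟩
  | inf s t hs ht =>
    obtain ⟨a, ha⟩ := hs
    obtain ⟨b, hb⟩ := ht
    exact ⟨max a b, fun M v w h => by
      simp only [Tm.eval]
      rw [ha M v w fun i hi => h i (lt_of_lt_of_le hi (le_max_left _ _)),
        hb M v w fun i hi => h i (lt_of_lt_of_le hi (le_max_right _ _))]⟩
  | sup s t hs ht =>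
    obtain ⟨a, ha⟩ := hs
    obtain ⟨b, hb⟩ := ht
    exact ⟨max a b, fun M v w h => by
      simp only [Tm.eval]
      rw [ha M v w fun i hi => h i (lt_of_lt_of_le hi (le_max_left _ _)),
        hb M v w fun i hi => h i (lt_of_lt_of_le hi (le_max_right _ _))]⟩
  | imp s t hs ht =>
    obtain ⟨a, ha⟩ := hs
    obtain ⟨b, hb⟩ := ht
    exact ⟨max a b, fun M v w h => by
      simp only [Tm.eval]
      rw [ha M v w fun i hi => h i (lt_of_lt_of_le hi (le_max_left _ _)),
        hb M v w fun i hi => h i (lt_of_lt_of_le hi (le_max_right _ _))]⟩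

theorem exists_bound_list (l : List Tm) : ∃ k, ∀ t ∈ l, ∀ (M : Alg) (v w : ℕ → M.carrier),
    (∀ i < k, v i = w i) → t.eval M v = t.eval M w := by
  induction l with
  | nil => exact ⟨0, by simp⟩
  | cons a l ih =>
    obtain ⟨k1, h1⟩ := ih
    obtain ⟨k2, h2⟩ := exists_bound a
    refine ⟨max k1 k2, fun t ht M v w h => ?_⟩
    rcases List.mem_cons.1 ht with rfl | ht
    · exact h2 M v w fun i hi => h i (lt_of_lt_of_le hi (le_max_right _ _))
    · exact h1 t ht M v w fun i hi => h i (lt_of_lt_of_le hi (le_max_left _ _))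

/-- Truncation of variables. -/
def trunc (k : ℕ) : ℕ → Tm := fun i => if i < k then Tm.var i else Tm.zero

theorem eval_trunc (M : Alg) (k : ℕ) (v : ℕ → M.carrier) (hv : ∀ i, k ≤ i → v i = M.zero)
    (t : Tm) : (t.subst (trunc k)).eval M v = t.eval M v := by
  rw [Tm.eval_subst]
  congr 1
  funext i
  unfold trunc
  split_ifs with h
  · rfl
  · exact (hv i (not_lt.1 h)).symm

/-- Quotients of the term algebra by congruences of finite index. -/
theorem quot_exists (r : Tm → Tm → Prop) (hr : Equivalence r)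
    (hinf : ∀ a a' b b', r a a' → r b b' → r (Tm.inf a b) (Tm.inf a' b'))
    (hsup : ∀ a a' b b', r a a' → r b b' → r (Tm.sup a b) (Tm.sup a' b'))
    (himp : ∀ a a' b b', r a a' → r b b' → r (Tm.imp a b) (Tm.imp a' b')) :
    ∃ (R : Alg) (cl : Tm → R.carrier), Function.Surjective cl ∧ TmHom R cl ∧
      ∀ s t, cl s = cl t ↔ r s t := by
  let s : Setoid Tm := ⟨r, hr⟩
  refine ⟨⟨Quotient s, Quotient.map₂ Tm.inf fun a a' h b b' h' => hinf a a' b b' h h',
    Quotient.map₂ Tm.sup fun a a' h b b' h' => hsup a a' b b' h h',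
    Quotient.map₂ Tm.imp fun a a' h b b' h' => himp a a' b b' h h',
    Quotient.mk s Tm.zero, Quotient.mk s Tm.one⟩, Quotient.mk s,
    fun x => Quotient.exists_rep x, ⟨?_, ?_, ?_, ?_, ?_⟩, fun a b => ?_⟩
  · intro a b; rfl
  · intro a b; rfl
  · intro a b; rfl
  · rfl
  · rfl
  · exact ⟨fun h => Quotient.exact h, fun h => Quotient.sound h⟩

theorem card_le_of_index {X K : Type} [Finite K] {cl : Tm → X}
    (hs : Function.Surjective cl) (g : Tm → K) (hg : ∀ s t, g s = g t → cl s = cl t) :
    Finite X ∧ Nat.card X ≤ Nat.card K := by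
  choose rep hrep using hs
  have hinj : Function.Injective (fun x => g (rep x)) := by
    intro x y h
    have := hg _ _ h
    rwa [hrep, hrep] at this
  exact ⟨Finite.of_injective _ hinj, Nat.card_le_card_of_injective _ hinj⟩

/-- Finite index in locally finite quasivarieties. -/
theorem term_index {A : Alg} {n : ℕ} (hA : Finite A.carrier) (hn : Nat.card A.carrier = n)
    (m : ℕ) {X : Type} {cl : Tm → X} (hs : Function.Surjective cl)
    (hcl : ∀ s t : Tm, (∀ u : ℕ → A.carrier, (∀ i, m ≤ i → u i = A.zero) →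
      s.eval A u = t.eval A u) → cl s = cl t) :
    Finite X ∧ Nat.card X ≤ n ^ (n ^ m) := by
  classical
  have h1 := card_le_of_index (K := (Fin m → A.carrier) → A.carrier) hs
    (fun t v => t.eval A (fun i => if h : i < m then v ⟨i, h⟩ else A.zero)) (fun s t h => by
      refine hcl s t fun u hu => ?_
      have h1 := congrFun h (fun i => u i)
      have h2 : (fun i => if h : i < m then (fun i : Fin m => u i) ⟨i, h⟩ else A.zero) = u := by
        funext i
        split_ifs with hi
        · rfl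
        · exact (hu i (not_lt.1 hi)).symm
      simp only at h1 h2
      rwa [h2] at h1)
  have h2 : Nat.card ((Fin m → A.carrier) → A.carrier) = n ^ (n ^ m) := by
    rw [Nat.card_fun, Nat.card_fun, hn, Nat.card_eq_fintype_card, Fintype.card_fin]
  rwa [h2] at h1

/-- The finite criterion. -/
def Crit (A : Alg) (n₁ n₂ : ℕ) : Prop :=
  ∀ B C : Alg, Finite B.carrier → Finite C.carrier → Nat.card B.carrier ≤ n₁ →
    Nat.card C.carrier ≤ n₂ → Sep B A → Sep C A →
    (∃ g : C.carrier → B.carrier, Function.Surjective g ∧ IsHom C B g) → Sep B C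

theorem crit_of_primitive (A : Alg) (h : Primitive (quasivarietyOf A)) (n₁ n₂ : ℕ) :
    Crit A n₁ n₂ := by
  rintro B C hB hC - - hBA hCA ⟨g, gs, hg⟩
  obtain ⟨V, ⟨E, rfl⟩, hV⟩ := h (quasivarietyOf C) ⟨{q | C.SatQ q}, rfl⟩
    (fun M hM q hq => hM q (hCA.satQ hq))
  have h1 : C ∈ quasivarietyOf C := fun q hq => hq
  have h2 : B ∈ quasivarietyOf C := by
    rw [hV]
    refine ⟨fun q hq => hBA.satQ hq, fun p hp => ?_⟩
    rw [hV] at h1
    exact satId_of_surj hg gs (h1.2 p hp)
  exact sep_of_mem h2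

theorem primitive_of_crit (A : Alg) (hA : Finite A.carrier) (n : ℕ)
    (hn : Nat.card A.carrier = n) (hcrit : Crit A n (n ^ (n ^ n))) :
    Primitive (quasivarietyOf A) := by
  classical
  have hn0 : 0 < n := by
    rw [← hn]
    have : Nonempty A.carrier := ⟨A.zero⟩
    exact Nat.card_pos
  rintro K' ⟨S, rfl⟩ hK'
  refine ⟨{M | ∀ p ∈ {p : Tm × Tm | ∀ M : Alg, (∀ q ∈ S, M.SatQ q) → M.SatId p}, M.SatId p},
    ⟨_, rfl⟩, ?_⟩
  apply Set.Subset.antisymm
  · intro M hM
    exact ⟨hK' hM, fun p hp => hp M hM⟩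
  rintro M ⟨hMK, hMV⟩ q hq v hv
  by_contra hne
  -- finitely many variables
  obtain ⟨k, hk⟩ := exists_bound_list (q.concl.1 :: q.concl.2 ::
    (q.prem.map Prod.fst ++ q.prem.map Prod.snd))
  let v' : ℕ → M.carrier := fun i => if i < k then v i else M.zero
  have hvv : ∀ i < k, v i = v' i := fun i hi => by simp [v', hi]
  have hv' : ∀ p ∈ q.prem, p.1.eval M v' = p.2.eval M v' := by
    intro p hp
    rw [← hk p.1 (by simp only [List.mem_cons, List.mem_append, List.mem_map]
                     exact Or.inr (Or.inr (Or.inl ⟨p, hp, rfl⟩))) M v v' hvv,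
      ← hk p.2 (by simp only [List.mem_cons, List.mem_append, List.mem_map]
                   exact Or.inr (Or.inr (Or.inr ⟨p, hp, rfl⟩))) M v v' hvv]
    exact hv p hp
  have hne' : q.concl.1.eval M v' ≠ q.concl.2.eval M v' := by
    rw [← hk q.concl.1 (by simp) M v v' hvv, ← hk q.concl.2 (by simp) M v v' hvv]
    exact hne
  -- the subalgebra generated by the values
  obtain ⟨R, cl, hs, hh, hcl⟩ := quot_exists (fun s t => s.eval M v' = t.eval M v')
    ⟨fun _ => rfl, fun h => h.symm, fun h h' => h.trans h'⟩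
    (fun a a' b b' h h' => by simp only [Tm.eval]; rw [h, h'])
    (fun a a' b b' h h' => by simp only [Tm.eval]; rw [h, h'])
    (fun a a' b b' h h' => by simp only [Tm.eval]; rw [h, h'])
  have hRfin : Finite R.carrier := (term_index hA hn k hs fun s t h => by
    rw [hcl, ← eval_trunc M k v' (fun i hi => by simp [v', hi]) s,
      ← eval_trunc M k v' (fun i hi => by simp [v', hi]) t]
    have h1 : A.SatId (s.subst (trunc k), t.subst (trunc k)) := by
      intro u
      simp only [Tm.eval_subst]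
      apply h
      intro i hi
      simp [trunc, not_lt.2 hi, Tm.eval]
    have h2 := hMK _ ((satQ_ofId _ _).2 h1)
    exact (satQ_ofId _ _).1 h2 v').1
  have hRK : R ∈ quasivarietyOf A := by
    intro q' hq' w hw
    have hMq := hMK q' hq'
    choose rep hrep using hs
    have h1 : ∀ t : Tm, t.eval R w = cl (t.subst fun i => rep (w i)) := by
      intro t
      rw [← hh.eval_rep]
      simp only [hrep]
    rw [h1, h1, hcl, Tm.eval_subst, Tm.eval_subst]
    refine hMq _ fun p hp => ?_
    rw [← Tm.eval_subst, ← Tm.eval_subst, ← hcl, ← h1, ← h1]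
    exact hw p hp
  have hRV : ∀ p : Tm × Tm, (∀ M : Alg, (∀ q ∈ S, M.SatQ q) → M.SatId p) → R.SatId p := by
    intro p hp w
    have hMp := hMV p hp
    choose rep hrep using hs
    have h1 : ∀ t : Tm, t.eval R w = cl (t.subst fun i => rep (w i)) := by
      intro t
      rw [← hh.eval_rep]
      simp only [hrep]
    rw [h1, h1, hcl, Tm.eval_subst, Tm.eval_subst]
    exact hMp _
  obtain ⟨f, hf, hfne⟩ := sep_of_mem hRK (cl q.concl.1) (cl q.concl.2)
    (fun h => hne' ((hcl _ _).1 h))
  -- its image `B` in `A`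
  have hf' : TmHom A (fun t => f (cl t)) := hf.compTm hh
  obtain ⟨B, clB, hsB, hhB, hclB⟩ := quot_exists (fun s t => f (cl s) = f (cl t))
    ⟨fun _ => rfl, fun h => h.symm, fun h h' => h.trans h'⟩
    (fun a a' b b' h h' => (hf'.inf a b).trans (by
      simp only [h, h']; exact (hf'.inf a' b').symm))
    (fun a a' b b' h h' => (hf'.sup a b).trans (by
      simp only [h, h']; exact (hf'.sup a' b').symm))
    (fun a a' b b' h h' => (hf'.imp a b).trans (by
      simp only [h, h']; exact (hf'.imp a' b').symm))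
  obtain ⟨hBfin, hBcard⟩ := card_le_of_index (K := A.carrier) hsB (fun t => f (cl t))
    (fun s t h => (hclB s t).2 h)
  rw [hn] at hBcard
  have hBA : Sep B A := by
    intro x y hxy
    choose rep hrep using hsB
    have hr : ∀ t, f (cl (rep (clB t))) = f (cl t) := fun t => (hclB _ _).1 (hrep _)
    refine ⟨fun b => f (cl (rep b)), induced hhB hf' rep hrep hr, fun h => hxy ?_⟩
    rw [← hrep x, ← hrep y, hclB]
    exact h
  have hBV : ∀ p : Tm × Tm, (∀ M : Alg, (∀ q ∈ S, M.SatQ q) → M.SatId p) → B.SatId p := by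
    intro p hp
    -- `B` is a homomorphic image of `R`
    choose rep hrep using hs
    have hr : ∀ t, cl (rep (cl t)) = cl t := fun t => hrep _
    have hr' : ∀ t, clB (rep (cl t)) = clB t := fun t => by rw [hclB, hr]
    refine satId_of_surj (g := fun x : R.carrier => clB (rep x))
      (induced hh hhB rep hrep hr') ?_ (hRV p hp)
    intro b
    obtain ⟨t, rfl⟩ := hsB b
    exact ⟨cl t, hr' t⟩
  -- the free algebra `C`
  obtain ⟨m, ⟨eB⟩⟩ := Finite.exists_equiv_fin B.carrier
  have hm : Nat.card B.carrier = m := by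
    rw [Nat.card_congr eB, Nat.card_eq_fintype_card, Fintype.card_fin]
  obtain ⟨C, clC, hsC, hhC, hclC⟩ := quot_exists
    (fun s t => ∀ M : Alg, (∀ q ∈ S, M.SatQ q) → ∀ u : ℕ → M.carrier,
      (∀ i, m ≤ i → u i = M.zero) → s.eval M u = t.eval M u)
    ⟨fun _ _ _ _ _ => rfl, fun h M hM u hu => (h M hM u hu).symm,
      fun h h' M hM u hu => (h M hM u hu).trans (h' M hM u hu)⟩
    (fun a a' b b' h h' M hM u hu => by simp only [Tm.eval]; rw [h M hM u hu, h' M hM u hu])
    (fun a a' b b' h h' M hM u hu => by simp only [Tm.eval]; rw [h M hM u hu, h' M hM u hu])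
    (fun a a' b b' h h' M hM u hu => by simp only [Tm.eval]; rw [h M hM u hu, h' M hM u hu])
  obtain ⟨hCfin, hCcard⟩ := term_index hA hn m hsC (fun s t h => by
    rw [hclC]
    intro M hM u hu
    rw [← eval_trunc M m u hu s, ← eval_trunc M m u hu t]
    have h1 : A.SatId (s.subst (trunc m), t.subst (trunc m)) := by
      intro u
      simp only [Tm.eval_subst]
      apply h
      intro i hi
      simp [trunc, not_lt.2 hi, Tm.eval]
    have h2 := hK' hM _ ((satQ_ofId _ _).2 h1)
    exact (satQ_ofId _ _).1 h2 u)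
  have hCK' : ∀ q ∈ S, C.SatQ q := by
    intro q' hq' w hw
    choose rep hrep using hsC
    have h1 : ∀ t : Tm, t.eval C w = clC (t.subst fun i => rep (w i)) := by
      intro t
      rw [← hhC.eval_rep]
      simp only [hrep]
    rw [h1, h1, hclC]
    intro M hM u hu
    rw [Tm.eval_subst, Tm.eval_subst]
    refine hM q' hq' _ fun p hp => ?_
    rw [← Tm.eval_subst, ← Tm.eval_subst]
    have h2 := hw p hp
    rw [h1, h1, hclC] at h2
    exact h2 M hM u hu
  have hCA : Sep C A := sep_of_mem (hK' hCK')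
  let vB : ℕ → B.carrier := fun i => if h : i < m then eB.symm ⟨i, h⟩ else B.zero
  have hvB : ∀ i, m ≤ i → vB i = B.zero := fun i hi => by simp [vB, hi]
  have hsur : ∃ g : C.carrier → B.carrier, Function.Surjective g ∧ IsHom C B g := by
    choose rep hrep using hsC
    have hwd : ∀ t, (rep (clC t)).eval B vB = t.eval B vB := by
      intro t
      rw [← eval_trunc B m vB hvB, ← eval_trunc B m vB hvB t]
      refine hBV ((rep (clC t)).subst (trunc m), t.subst (trunc m)) (fun M hM u => ?_) vB
      simp only [Tm.eval_subst]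
      refine (hclC _ _).1 (hrep (clC t)) M hM _ fun i hi => ?_
      simp [trunc, not_lt.2 hi, Tm.eval]
    refine ⟨fun x => (rep x).eval B vB, fun b => ⟨clC (Tm.var (eB b)), ?_⟩,
      induced hhC (tmHom_eval B vB) rep hrep hwd⟩
    simp only
    rw [hwd]
    simp [Tm.eval, vB]
  have hmn : m ≤ n := hm ▸ hBcard
  have hBC : Sep B C := hcrit B C hBfin hCfin hBcard
    (hCcard.trans (Nat.pow_le_pow_right hn0 (Nat.pow_le_pow_right hn0 hmn))) hBA hCA hsur
  have hBq : B.SatQ q := hBC.satQ (hCK' q hq)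
  have h9 := hBq (fun i => clB (Tm.var i)) (fun p hp => by
    rw [hhB.eval_var, hhB.eval_var, hclB, (hcl _ _).2 (hv' p hp)])
  rw [hhB.eval_var, hhB.eval_var, hclB] at h9
  exact hfne h9

end Pool.Agent.W886.Prim
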