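import Mathlib

/-!
# Quasivarieties of algebras in the signature of Heyting algebras, primitivity,
and the deductive system of a finite Heyting algebra
-/

set_option autoImplicit false

namespace Pool.Agent.W886.Prim

/-- Terms in the signature `(∧, ∨, →, 0, 1)` over the variables `x 0, x 1, x 2, ...`; these are
also the formulas of intuitionistic propositional logic. -/
inductive Tm : Type
  | var (i : ℕ) : Tm
  | zero : Tm
  | one : Tm
  | inf (s t : Tm) : Tm
  | sup (s t : Tm) : Tm
  | imp (s t : Tm) : Tm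
  deriving DecidableEq

/-- Algebras in the signature `(∧, ∨, →, 0, 1)`. -/
structure Alg : Type 1 where
  carrier : Type
  inf : carrier → carrier → carrier
  sup : carrier → carrier → carrier
  imp : carrier → carrier → carrier
  zero : carrier
  one : carrier

/-- The value of a term in an algebra under an assignment of elements to the variables. -/
def Tm.eval (M : Alg) (v : ℕ → M.carrier) : Tm → M.carrier
  | Tm.var i => v i
  | Tm.zero => M.zero
  | Tm.one => M.one
  | Tm.inf s t => M.inf (s.eval M v) (t.eval M v)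
  | Tm.sup s t => M.sup (s.eval M v) (t.eval M v)
  | Tm.imp s t => M.imp (s.eval M v) (t.eval M v)

/-- The algebra of a Heyting algebra. -/
def ofHeyting (A : Type) [HeytingAlgebra A] : Alg :=
  ⟨A, fun a b => a ⊓ b, fun a b => a ⊔ b, fun a b => a ⇨ b, ⊥, ⊤⟩

/-- A quasi-identity: finitely many equations (the premises) imply an equation (the
conclusion). -/
structure QuasiId where
  prem : List (Tm × Tm)
  concl : Tm × Tm

/-- The identity `p.1 = p.2` is valid in `M`. -/
def Alg.SatId (M : Alg) (p : Tm × Tm) : Prop :=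
  ∀ v : ℕ → M.carrier, p.1.eval M v = p.2.eval M v

/-- The quasi-identity `q` is valid in `M`. -/
def Alg.SatQ (M : Alg) (q : QuasiId) : Prop :=
  ∀ v : ℕ → M.carrier, (∀ p ∈ q.prem, p.1.eval M v = p.2.eval M v) →
    q.concl.1.eval M v = q.concl.2.eval M v

/-- A quasivariety: the class of all algebras satisfying a set of quasi-identities. -/
def IsQuasivariety (K : Set Alg) : Prop :=
  ∃ S : Set QuasiId, K = {M | ∀ q ∈ S, M.SatQ q}

/-- A variety: the class of all algebras satisfying a set of identities. -/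
def IsVariety (V : Set Alg) : Prop :=
  ∃ E : Set (Tm × Tm), V = {M | ∀ p ∈ E, M.SatId p}

/-- The quasivariety generated by the algebra `A`: all algebras satisfying every quasi-identity
valid in `A`. -/
def quasivarietyOf (A : Alg) : Set Alg := {M | ∀ q : QuasiId, A.SatQ q → M.SatQ q}

/-- A quasivariety `K` is primitive if every subquasivariety of `K` is the intersection of `K`
with a variety. -/
def Primitive (K : Set Alg) : Prop :=
  ∀ K' : Set Alg, IsQuasivariety K' → K' ⊆ K → ∃ V : Set Alg, IsVariety V ∧ K' = K ∩ V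

/-! ## Deductive systems -/

/-- The result of a substitution of formulas for the variables. -/
def Tm.subst (σ : ℕ → Tm) : Tm → Tm
  | Tm.var i => σ i
  | Tm.zero => Tm.zero
  | Tm.one => Tm.one
  | Tm.inf s t => Tm.inf (s.subst σ) (t.subst σ)
  | Tm.sup s t => Tm.sup (s.subst σ) (t.subst σ)
  | Tm.imp s t => Tm.imp (s.subst σ) (t.subst σ)

/-- A deductive system: a structural (substitution-invariant) finitary consequence relation on
formulas. -/
structure DedSys where
  /-- `der Γ φ`: the formula `φ` is a consequence of the set `Γ` of formulas. -/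
  der : Set Tm → Tm → Prop
  ax : ∀ Γ φ, φ ∈ Γ → der Γ φ
  cut : ∀ Γ Δ φ, (∀ ψ ∈ Δ, der Γ ψ) → der Δ φ → der Γ φ
  finitary : ∀ Γ φ, der Γ φ → ∃ Δ : Set Tm, Δ ⊆ Γ ∧ Δ.Finite ∧ der Δ φ
  structural : ∀ Γ φ (σ : ℕ → Tm), der Γ φ → der (Tm.subst σ '' Γ) (φ.subst σ)

namespace DedSys

/-- The rule `Γ / φ` (`Γ` a finite set of formulas) is admissible in `S`: every substitution that
makes all formulas of `Γ` theorems makes `φ` a theorem. -/
def Admissible (S : DedSys) (Γ : Finset Tm) (φ : Tm) : Prop :=
  ∀ σ : ℕ → Tm, (∀ ψ ∈ Γ, S.der ∅ (ψ.subst σ)) → S.der ∅ (φ.subst σ)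

/-- `S` is structurally complete: every rule admissible in `S` is derivable in `S`. -/
def StructurallyComplete (S : DedSys) : Prop :=
  ∀ (Γ : Finset Tm) (φ : Tm), S.Admissible Γ φ → S.der (↑Γ) φ

/-- `S'` extends `S`. -/
def Extends (S' S : DedSys) : Prop := ∀ Γ φ, S.der Γ φ → S'.der Γ φ

/-- `S` is hereditarily structurally complete: every structural finitary extension of it is
structurally complete. -/
def HereditarilyStructurallyComplete (S : DedSys) : Prop :=
  ∀ S' : DedSys, S'.Extends S → S'.StructurallyComplete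

end DedSys

theorem Tm.eval_subst (M : Alg) (σ : ℕ → Tm) (v : ℕ → M.carrier) (t : Tm) :
    (t.subst σ).eval M v = t.eval M (fun i => (σ i).eval M v) := by
  induction t with
  | var i => rfl
  | zero => rfl
  | one => rfl
  | inf s t hs ht => simp only [Tm.subst, Tm.eval, hs, ht]
  | sup s t hs ht => simp only [Tm.subst, Tm.eval, hs, ht]
  | imp s t hs ht => simp only [Tm.subst, Tm.eval, hs, ht]

/-- The value of a formula in a Heyting algebra under a valuation. -/
def Tm.val {A : Type} [HeytingAlgebra A] (v : ℕ → A) : Tm → A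
  | Tm.var i => v i
  | Tm.zero => ⊥
  | Tm.one => ⊤
  | Tm.inf s t => s.val v ⊓ t.val v
  | Tm.sup s t => s.val v ⊔ t.val v
  | Tm.imp s t => s.val v ⇨ t.val v

theorem Tm.val_eq {A : Type} [HeytingAlgebra A] (v : ℕ → A) (t : Tm) :
    t.val v = t.eval (ofHeyting A) v := by
  induction t with
  | var i => rfl
  | zero => rfl
  | one => rfl
  | inf s t hs ht => simp only [Tm.val, Tm.eval, hs, ht]; rfl
  | sup s t hs ht => simp only [Tm.val, Tm.eval, hs, ht]; rfl
  | imp s t hs ht => simp only [Tm.val, Tm.eval, hs, ht]; rfl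

theorem Tm.val_subst {A : Type} [HeytingAlgebra A] (σ : ℕ → Tm) (v : ℕ → A) (t : Tm) :
    (t.subst σ).val v = t.val (fun i => (σ i).val v) := by
  induction t with
  | var i => rfl
  | zero => rfl
  | one => rfl
  | inf s t hs ht => simp only [Tm.subst, Tm.val, hs, ht]
  | sup s t hs ht => simp only [Tm.subst, Tm.val, hs, ht]
  | imp s t hs ht => simp only [Tm.subst, Tm.val, hs, ht]

/-- For a finite Heyting algebra `A`, the consequence relation of `A` is finitary. -/
theorem matrix_finitary (A : Type) [HeytingAlgebra A] [Finite A] (Γ : Set Tm) (φ : Tm)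
    (h : ∀ v : ℕ → A, (∀ ψ ∈ Γ, ψ.val v = ⊤) → φ.val v = ⊤) :
    ∃ Δ : Set Tm, Δ ⊆ Γ ∧ Δ.Finite ∧
      ∀ v : ℕ → A, (∀ ψ ∈ Δ, ψ.val v = ⊤) → φ.val v = ⊤ := by
  classical
  let _ : TopologicalSpace A := ⊥
  have _ : DiscreteTopology A := ⟨rfl⟩
  have _ : CompactSpace A := Finite.compactSpace
  have hc : ∀ t : Tm, Continuous (fun v : ℕ → A => t.val v) := by
    intro t
    induction t with
    | var i => exact continuous_apply i
    | zero => exact continuous_const
    | one => exact continuous_const
    | inf s t hs ht =>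
      exact (continuous_of_discreteTopology (f := fun p : A × A => p.1 ⊓ p.2)).comp
        (hs.prodMk ht)
    | sup s t hs ht =>
      exact (continuous_of_discreteTopology (f := fun p : A × A => p.1 ⊔ p.2)).comp
        (hs.prodMk ht)
    | imp s t hs ht =>
      exact (continuous_of_discreteTopology (f := fun p : A × A => p.1 ⇨ p.2)).comp
        (hs.prodMk ht)
  by_contra hno
  push Not at hno
  have hcl : ∀ t : Tm, IsClosed {v : ℕ → A | t.val v = ⊤} := fun t =>
    (isClosed_discrete ({⊤} : Set A)).preimage (hc t)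
  have hcl' : IsClosed {v : ℕ → A | φ.val v ≠ ⊤} :=
    (isClosed_discrete ({⊤}ᶜ : Set A)).preimage (hc φ)
  have key := hcl'.isCompact.inter_iInter_nonempty
    (fun ψ : Γ => {v : ℕ → A | (ψ : Tm).val v = ⊤}) (fun ψ => hcl ψ)
    (fun s => by
      obtain ⟨v, hv, hφ⟩ := hno (Subtype.val '' (s : Set Γ)) (by
        rintro _ ⟨x, -, rfl⟩; exact x.2) (s.finite_toSet.image _)
      refine ⟨v, hφ, ?_⟩
      simp only [Set.mem_iInter, Set.mem_ofPred_eq]
      intro ψ hψ
      exact hv ψ ⟨ψ, hψ, rfl⟩)
  obtain ⟨v, hφ, hv⟩ := key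
  simp only [Set.mem_iInter, Set.mem_ofPred_eq] at hv
  exact hφ (h v fun ψ hψ => hv ⟨ψ, hψ⟩)

/-- The deductive system `⊢_A` of a finite Heyting algebra `A`: `Γ ⊢_A φ` iff every valuation into
`A` sending all members of `Γ` to the top element sends `φ` to the top element. -/
def matrixSystem (A : Type) [HeytingAlgebra A] [Finite A] : DedSys where
  der := fun Γ φ => ∀ v : ℕ → A, (∀ ψ ∈ Γ, ψ.val v = ⊤) → φ.val v = ⊤
  ax := fun _ φ h _ hv => hv φ h
  cut := fun _ _ _ h1 h2 v hv => h2 v fun ψ hψ => h1 ψ hψ v hv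
  finitary := matrix_finitary A
  structural := fun Γ φ σ h v hv => by
    rw [Tm.val_subst]
    refine h _ fun ψ hψ => ?_
    have h1 := hv (ψ.subst σ) ⟨ψ, hψ, rfl⟩
    rw [Tm.val_subst] at h1
    exact h1

/-! ## The operation tables of a finite Heyting algebra -/

/-- The table of a binary operation on `{0, …, n - 1}`, row by row. -/
def opTable {n : ℕ} (f : Fin n → Fin n → Fin n) : List ℕ :=
  List.ofFn fun p : Fin (n * n) => (f p.divNat p.modNat : ℕ)

/-- The operation tables of a finite Heyting algebra `A` whose elements are numbered by `e`: the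
number `n` of elements, the number of the bottom element, and the `n × n` tables of the operations
`⊓`, `⊔`, `⇨`, row by row. -/
def tables {A : Type} [HeytingAlgebra A] {n : ℕ} (e : A ≃ Fin n) : List ℕ :=
  n :: (e ⊥ : ℕ) :: (opTable (fun i j => e (e.symm i ⊓ e.symm j)) ++
    (opTable (fun i j => e (e.symm i ⊔ e.symm j)) ++
      opTable (fun i j => e (e.symm i ⇨ e.symm j))))

end Pool.Agent.W886.Prim
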