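import Pool.Agent.W886.Prim.Core

/-!
# Hereditary structural completeness of `⊢_A` and primitivity of `Q(A)`
-/

set_option autoImplicit false

namespace Pool.Agent.W886.Prim

/-- Equivalence of formulas, as a formula. -/
def biimp (s t : Tm) : Tm := Tm.inf (Tm.imp s t) (Tm.imp t s)

theorem subst_biimp (σ : ℕ → Tm) (s t : Tm) :
    (biimp s t).subst σ = biimp (s.subst σ) (t.subst σ) := rfl

section

variable {A : Type} [HeytingAlgebra A]

theorem val_biimp (v : ℕ → A) (s t : Tm) : (biimp s t).val v = ⊤ ↔ s.val v = t.val v := by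
  simp only [biimp, Tm.val]
  constructor
  · intro h
    have h1 : s.val v ⇨ t.val v = ⊤ := top_unique (h ▸ inf_le_left)
    have h2 : t.val v ⇨ s.val v = ⊤ := top_unique (h ▸ inf_le_right)
    exact le_antisymm (himp_eq_top_iff.1 h1) (himp_eq_top_iff.1 h2)
  · intro h
    rw [h]; simp

theorem satQ_ofHeyting (q : QuasiId) : (ofHeyting A).SatQ q ↔
    ∀ v : ℕ → A, (∀ p ∈ q.prem, p.1.val v = p.2.val v) → q.concl.1.val v = q.concl.2.val v := by
  simp only [Tm.val_eq]
  rfl

/-- In members of the quasivariety of a Heyting algebra, `s = t` iff `(s ↔ t) = 1`. -/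
theorem eval_biimp {M : Alg} (hM : M ∈ quasivarietyOf (ofHeyting A)) (v : ℕ → M.carrier)
    (s t : Tm) : (biimp s t).eval M v = M.one ↔ s.eval M v = t.eval M v := by
  constructor
  · intro h
    have h1 : (ofHeyting A).SatQ ⟨[(biimp s t, Tm.one)], (s, t)⟩ := by
      rw [satQ_ofHeyting]
      intro w hw
      exact (val_biimp w s t).1 (hw (biimp s t, Tm.one) (by simp))
    exact hM _ h1 v (by simpa [Tm.eval] using h)
  · intro h
    have h1 : (ofHeyting A).SatQ ⟨[(s, t)], (biimp s t, Tm.one)⟩ := by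
      rw [satQ_ofHeyting]
      intro w hw
      exact (val_biimp w s t).2 (hw (s, t) (by simp))
    exact hM _ h1 v (by simpa using h)

end

/-- The rule `Δ / φ` is valid in `M`. -/
def RuleValid (M : Alg) (Δ : Finset Tm) (φ : Tm) : Prop :=
  ∀ v : ℕ → M.carrier, (∀ ψ ∈ Δ, ψ.eval M v = M.one) → φ.eval M v = M.one

/-- A rule as a quasi-identity. -/
noncomputable def ofRule (Δ : Finset Tm) (φ : Tm) : QuasiId :=
  ⟨Δ.toList.map fun ψ => (ψ, Tm.one), (φ, Tm.one)⟩

theorem satQ_ofRule (M : Alg) (Δ : Finset Tm) (φ : Tm) :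
    M.SatQ (ofRule Δ φ) ↔ RuleValid M Δ φ := by
  constructor
  · intro h v hv
    refine h v fun p hp => ?_
    simp only [ofRule, List.mem_map, Finset.mem_toList] at hp
    obtain ⟨ψ, hψ, rfl⟩ := hp
    exact hv ψ hψ
  · intro h v hv
    refine h v fun ψ hψ => ?_
    refine hv (ψ, Tm.one) ?_
    simp only [ofRule, List.mem_map, Finset.mem_toList]
    exact ⟨ψ, hψ, rfl⟩

/-- The quasi-identity `q` as a rule: premises. -/
def premF (q : QuasiId) : Finset Tm := (q.prem.map fun p => biimp p.1 p.2).toFinset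

/-- The quasi-identity `q` as a rule: conclusion. -/
def conclF (q : QuasiId) : Tm := biimp q.concl.1 q.concl.2

theorem satQ_iff {A : Type} [HeytingAlgebra A] {M : Alg}
    (hM : M ∈ quasivarietyOf (ofHeyting A)) (q : QuasiId) :
    M.SatQ q ↔ RuleValid M (premF q) (conclF q) := by
  constructor
  · intro h v hv
    rw [conclF, eval_biimp hM]
    refine h v fun p hp => ?_
    rw [← eval_biimp hM]
    refine hv _ ?_
    simp only [premF, List.mem_toFinset, List.mem_map]
    exact ⟨p, hp, rfl⟩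
  · intro h v hv
    rw [← eval_biimp hM]
    refine h v fun ψ hψ => ?_
    simp only [premF, List.mem_toFinset, List.mem_map] at hψ
    obtain ⟨p, hp, rfl⟩ := hψ
    rw [eval_biimp hM]
    exact hv p hp

/-- The deductive system of a class of algebras. -/
def sysOf (L : Set Alg) : DedSys where
  der := fun Γ φ => ∃ Δ : Finset Tm, (↑Δ : Set Tm) ⊆ Γ ∧ ∀ M ∈ L, RuleValid M Δ φ
  ax := fun Γ φ h => ⟨{φ}, by simpa using h, fun M _ v hv => hv φ (by simp)⟩
  cut := by
    classical
    rintro Γ Δ φ h ⟨Δ', h5, h6⟩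
    choose! f hf using h
    refine ⟨Δ'.biUnion f, ?_, ?_⟩
    · intro C hC
      simp only [Finset.coe_biUnion, Set.mem_iUnion, Finset.mem_coe] at hC
      obtain ⟨B, hB, hC⟩ := hC
      exact (hf B (h5 hB)).1 hC
    · intro M hM v hv
      refine h6 M hM v fun ψ hψ => (hf ψ (h5 hψ)).2 M hM v fun χ hχ => hv χ ?_
      exact Finset.mem_biUnion.2 ⟨ψ, hψ, hχ⟩
  finitary := fun Γ φ ⟨Δ, h1, h2⟩ => ⟨↑Δ, h1, Δ.finite_toSet, Δ, subset_rfl, h2⟩
  structural := by
    classical
    rintro Γ φ σ ⟨Δ, h5, h6⟩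
    refine ⟨Δ.image (Tm.subst σ), ?_, ?_⟩
    · rw [Finset.coe_image]
      exact Set.image_mono h5
    · intro M hM v hv
      rw [Tm.eval_subst]
      refine h6 M hM _ fun ψ hψ => ?_
      rw [← Tm.eval_subst]
      exact hv _ (Finset.mem_image_of_mem _ hψ)

theorem sysOf_thm (L : Set Alg) (φ : Tm) :
    (sysOf L).der ∅ φ ↔ ∀ M ∈ L, ∀ v : ℕ → M.carrier, φ.eval M v = M.one := by
  constructor
  · rintro ⟨Δ, h1, h2⟩ M hM v
    have h3 : Δ = ∅ := by simpa using h1
    subst h3
    exact h2 M hM v (by simp)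
  · intro h
    exact ⟨∅, by simp, fun M hM v _ => h M hM v⟩

theorem DedSys.mono (S : DedSys) {Γ Δ : Set Tm} {φ : Tm} (h : Γ ⊆ Δ) (hφ : S.der Γ φ) :
    S.der Δ φ :=
  S.cut Δ Γ φ (fun ψ hψ => S.ax Δ ψ (h hψ)) hφ

section

variable {A : Type} [HeytingAlgebra A] [Finite A]

theorem sysOf_extends {L : Set Alg} (hL : L ⊆ quasivarietyOf (ofHeyting A)) :
    (sysOf L).Extends (matrixSystem A) := by
  intro Γ φ h
  obtain ⟨Δ, h1, h2, h3⟩ := (matrixSystem A).finitary Γ φ h
  refine ⟨h2.toFinset, by simpa using h1, fun M hM => ?_⟩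
  rw [← satQ_ofRule]
  refine hL hM _ ?_
  rw [satQ_ofHeyting]
  intro v hv
  refine h3 v fun ψ hψ => ?_
  refine hv (ψ, Tm.one) ?_
  simp only [ofRule, List.mem_map, Finset.mem_toList, Set.Finite.mem_toFinset]
  exact ⟨ψ, hψ, rfl⟩

theorem primitive_of_hsc (h : (matrixSystem A).HereditarilyStructurallyComplete) :
    Primitive (quasivarietyOf (ofHeyting A)) := by
  rintro K' ⟨S, rfl⟩ hK'
  refine ⟨{M | ∀ p ∈ {p : Tm × Tm | ∀ M : Alg, (∀ q ∈ S, M.SatQ q) → M.SatId p}, M.SatId p},
    ⟨_, rfl⟩, ?_⟩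
  apply Set.Subset.antisymm
  · intro M hM
    exact ⟨hK' hM, fun p hp => hp M hM⟩
  rintro M ⟨hMK, hMV⟩ q hq
  have hL : insert M {M | ∀ q ∈ S, M.SatQ q} ⊆ quasivarietyOf (ofHeyting A) := by
    rintro N (rfl | hN)
    · exact hMK
    · exact hK' hN
  have h1 := h (sysOf (insert M {M | ∀ q ∈ S, M.SatQ q})) (sysOf_extends hL) (premF q)
    (conclF q) (by
      intro σ hσ
      rw [sysOf_thm]
      have hid : ∀ N : Alg, (∀ q ∈ S, N.SatQ q) →
          N.SatId (q.concl.1.subst σ, q.concl.2.subst σ) := by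
        intro N hN v
        simp only
        rw [Tm.eval_subst, Tm.eval_subst]
        refine hN q hq _ fun p hp => ?_
        rw [← eval_biimp (hK' hN), ← Tm.eval_subst]
        exact (sysOf_thm _ _).1 (hσ (biimp p.1 p.2) (by
          simp only [premF, List.mem_toFinset, List.mem_map]
          exact ⟨p, hp, rfl⟩)) N (Or.inr hN) v
      rintro N (rfl | hN) v
      · rw [conclF, subst_biimp, eval_biimp hMK]
        exact hMV _ hid v
      · rw [conclF, subst_biimp, eval_biimp (hK' hN)]
        exact hid N hN v)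
  obtain ⟨Δ, h2, h3⟩ := h1
  rw [satQ_iff hMK]
  intro v hv
  exact h3 M (Or.inl rfl) v fun ψ hψ => hv ψ (by exact_mod_cast h2 hψ)

section

variable {T : DedSys} (hT : T.Extends (matrixSystem A))

include hT

theorem der_of_rule (Γ : Set Tm) (l : List Tm) (φ : Tm) (h1 : ∀ ψ ∈ l, T.der Γ ψ)
    (h : ∀ v : ℕ → A, (∀ ψ ∈ l, ψ.val v = ⊤) → φ.val v = ⊤) : T.der Γ φ := by
  refine T.cut Γ {ψ | ψ ∈ l} φ (fun ψ hψ => h1 ψ hψ) ?_
  exact hT _ _ fun v hv => h v fun ψ hψ => hv ψ hψ

/-- Lindenbaum algebras of extensions of `⊢_A`. -/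
theorem LT_exists (Γ : Set Tm) : ∃ (R : Alg) (cl : Tm → R.carrier), Function.Surjective cl ∧
    TmHom R cl ∧ (∀ s t, cl s = cl t ↔ T.der Γ (biimp s t)) ∧
    (∀ s, cl s = R.one ↔ T.der Γ s) ∧ R ∈ quasivarietyOf (ofHeyting A) := by
  obtain ⟨R, cl, hs, hh, hcl⟩ := quot_exists (fun s t => T.der Γ (biimp s t))
    ⟨fun s => der_of_rule hT Γ [] _ (by simp) fun v _ => (val_biimp v s s).2 rfl,
      fun {s t} h => der_of_rule hT Γ [biimp s t] _ (by simpa using h) fun v hv => by
        have h1 := hv _ (List.mem_singleton.2 rfl)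
        rw [val_biimp] at h1 ⊢
        exact h1.symm,
      fun {s t u} h h' => der_of_rule hT Γ [biimp s t, biimp t u] _ (by
        intro ψ hψ
        simp only [List.mem_cons, List.not_mem_nil, or_false] at hψ
        rcases hψ with rfl | rfl
        exacts [h, h']) fun v hv => by
        have h1 := hv (biimp s t) (by simp)
        have h2 := hv (biimp t u) (by simp)
        rw [val_biimp] at h1 h2 ⊢
        exact h1.trans h2⟩
    (fun a a' b b' h h' => der_of_rule hT Γ [biimp a a', biimp b b'] _ (by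
        intro ψ hψ
        simp only [List.mem_cons, List.not_mem_nil, or_false] at hψ
        rcases hψ with rfl | rfl
        exacts [h, h']) fun v hv => by
        have h1 := hv (biimp a a') (by simp)
        have h2 := hv (biimp b b') (by simp)
        rw [val_biimp] at h1 h2 ⊢
        simp only [Tm.val, h1, h2])
    (fun a a' b b' h h' => der_of_rule hT Γ [biimp a a', biimp b b'] _ (by
        intro ψ hψ
        simp only [List.mem_cons, List.not_mem_nil, or_false] at hψ
        rcases hψ with rfl | rfl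
        exacts [h, h']) fun v hv => by
        have h1 := hv (biimp a a') (by simp)
        have h2 := hv (biimp b b') (by simp)
        rw [val_biimp] at h1 h2 ⊢
        simp only [Tm.val, h1, h2])
    (fun a a' b b' h h' => der_of_rule hT Γ [biimp a a', biimp b b'] _ (by
        intro ψ hψ
        simp only [List.mem_cons, List.not_mem_nil, or_false] at hψ
        rcases hψ with rfl | rfl
        exacts [h, h']) fun v hv => by
        have h1 := hv (biimp a a') (by simp)
        have h2 := hv (biimp b b') (by simp)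
        rw [val_biimp] at h1 h2 ⊢
        simp only [Tm.val, h1, h2])
  refine ⟨R, cl, hs, hh, hcl, fun s => ?_, ?_⟩
  · rw [← hh.one, hcl]
    constructor
    · intro h
      refine der_of_rule hT Γ [biimp s Tm.one] _ (by simpa using h) fun v hv => ?_
      have h1 := hv _ (List.mem_singleton.2 rfl)
      rw [val_biimp] at h1
      exact h1
    · intro h
      refine der_of_rule hT Γ [s] _ (by simpa using h) fun v hv => ?_
      rw [val_biimp]
      exact hv _ (List.mem_singleton.2 rfl)
  · intro q hq w hw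
    choose rep hrep using hs
    have h1 : ∀ t : Tm, t.eval R w = cl (t.subst fun i => rep (w i)) := by
      intro t
      rw [← hh.eval_rep]
      simp only [hrep]
    rw [h1, h1, hcl]
    refine der_of_rule hT Γ (q.prem.map fun p =>
      biimp (p.1.subst fun i => rep (w i)) (p.2.subst fun i => rep (w i))) _ ?_ ?_
    · intro ψ hψ
      simp only [List.mem_map] at hψ
      obtain ⟨p, hp, rfl⟩ := hψ
      rw [← hcl, ← h1, ← h1]
      exact hw p hp
    · intro v hv
      rw [val_biimp, Tm.val_subst, Tm.val_subst]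
      refine (satQ_ofHeyting q).1 hq _ fun p hp => ?_
      have h2 := hv _ (List.mem_map.2 ⟨p, hp, rfl⟩)
      rw [val_biimp, Tm.val_subst, Tm.val_subst] at h2
      exact h2

end

theorem hsc_of_primitive (h : Primitive (quasivarietyOf (ofHeyting A))) :
    (matrixSystem A).HereditarilyStructurallyComplete := by
  intro T hT Γ φ hadm
  -- the quasivariety of the admissible rules of `T`
  let Kadm : Set Alg := {M | ∀ q ∈ {q | (ofHeyting A).SatQ q} ∪
    {q | ∃ Δ ψ, T.Admissible Δ ψ ∧ q = ofRule Δ ψ}, M.SatQ q}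
  have hKadm : Kadm ⊆ quasivarietyOf (ofHeyting A) := fun M hM q hq => hM q (Or.inl hq)
  obtain ⟨V, ⟨E, rfl⟩, hV⟩ := h Kadm ⟨_, rfl⟩ hKadm
  -- the Lindenbaum algebra of `T` without premises is in `Kadm`
  obtain ⟨R0, cl0, hs0, hh0, hcl0, hone0, hR0⟩ := LT_exists hT ∅
  have hR0adm : R0 ∈ Kadm := by
    rintro q (hq | ⟨Δ, ψ, h1, rfl⟩)
    · exact hR0 q hq
    · rw [satQ_ofRule]
      intro w hw
      choose rep hrep using hs0
      have h2 : ∀ t : Tm, t.eval R0 w = cl0 (t.subst fun i => rep (w i)) := by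
        intro t
        rw [← hh0.eval_rep]
        simp only [hrep]
      rw [h2, hone0]
      refine h1 _ fun χ hχ => ?_
      rw [← hone0, ← h2]
      exact hw χ hχ
  -- the Lindenbaum algebra of `T` with premises `Γ`
  obtain ⟨R, cl, hs, hh, hcl, hone, hR⟩ := LT_exists hT (↑Γ)
  have hRE : ∀ p ∈ E, R.SatId p := by
    intro p hp w
    have h0 : R0.SatId p := by
      rw [hV] at hR0adm
      exact hR0adm.2 p hp
    have h1 := h0 (fun i => cl0 (Tm.var i))
    rw [hh0.eval_var, hh0.eval_var, hcl0] at h1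
    choose rep hrep using hs
    have h2 : ∀ t : Tm, t.eval R w = cl (t.subst fun i => rep (w i)) := by
      intro t
      rw [← hh.eval_rep]
      simp only [hrep]
    rw [h2, h2, hcl]
    have h3 := T.structural _ _ (fun i => rep (w i)) h1
    rw [Set.image_empty] at h3
    exact T.mono (Set.empty_subset _) h3
  have hRadm : R ∈ Kadm := by
    rw [hV]
    exact ⟨hR, hRE⟩
  have h4 := hRadm (ofRule Γ φ) (Or.inr ⟨Γ, φ, hadm, rfl⟩)
  rw [satQ_ofRule] at h4
  have h5 := h4 (fun i => cl (Tm.var i)) (fun ψ hψ => by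
    rw [hh.eval_var, hone]
    exact T.ax _ _ (by exact_mod_cast hψ))
  rw [hh.eval_var, hone] at h5
  exact h5

theorem hsc_iff_primitive : (matrixSystem A).HereditarilyStructurallyComplete ↔
    Primitive (quasivarietyOf (ofHeyting A)) :=
  ⟨primitive_of_hsc, hsc_of_primitive⟩

end

end Pool.Agent.W886.Prim
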