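import Pool.Agent.W886.Prim.CritN
import Pool.Agent.W886.Prim.Logic

/-!
# Primitivity of `Q(A)` is decidable
-/

set_option autoImplicit false

namespace Pool.Agent.W886.Prim

open Pool.Agent.W886.PrimN

/-- The algebra of a raw algebra. -/
def algOf {X : Type} (R : H877R3.HSC.RA X) : Alg := ⟨X, R.inf, R.sup, R.imp, R.bot, R.top⟩

/-- The raw algebra of an algebra. -/
def rawOf (M : Alg) : H877R3.HSC.RA M.carrier := ⟨M.inf, M.sup, M.imp, M.zero⟩

/-- Transport of a raw algebra along a bijection. -/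
def tr {X Y : Type} (R : H877R3.HSC.RA X) (e : X ≃ Y) : H877R3.HSC.RA Y :=
  ⟨fun a b => e (R.inf (e.symm a) (e.symm b)), fun a b => e (R.sup (e.symm a) (e.symm b)),
    fun a b => e (R.imp (e.symm a) (e.symm b)), e R.bot⟩

theorem isHom_tr {X Y : Type} (R : H877R3.HSC.RA X) (e : X ≃ Y) :
    H877R3.HSC.RA.IsHom R (tr R e) e :=
  ⟨fun a b => by simp [tr], fun a b => by simp [tr], fun a b => by simp [tr], rfl⟩

theorem isHom_tr_symm {X Y : Type} (R : H877R3.HSC.RA X) (e : X ≃ Y) :
    H877R3.HSC.RA.IsHom (tr R e) R e.symm :=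
  ⟨fun a b => by simp [tr], fun a b => by simp [tr], fun a b => by simp [tr], by simp [tr]⟩

/-- `1 = 0 → 0` holds in `M`. -/
def One (M : Alg) : Prop := M.one = M.imp M.zero M.zero

theorem one_ofHeyting (A : Type) [HeytingAlgebra A] : One (ofHeyting A) := by
  simp [One, ofHeyting]

theorem one_of_sep {M N : Alg} (h : Sep M N) (hN : One N) : One M := by
  by_contra hne
  obtain ⟨f, hf, hne⟩ := h _ _ hne
  apply hne
  rw [hf.one, hf.imp, hf.zero]
  exact hN

theorem isHom_iff_raw {M N : Alg} (hM : One M) (hN : One N) (f : M.carrier → N.carrier) :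
    IsHom M N f ↔ H877R3.HSC.RA.IsHom (rawOf M) (rawOf N) f := by
  constructor
  · intro h
    exact ⟨h.inf, h.sup, h.imp, h.zero⟩
  · intro h
    refine ⟨h.inf, h.sup, h.imp, h.bot, ?_⟩
    rw [hM, hN]
    have h1 := h.imp M.zero M.zero
    have h2 := h.bot
    simp only [rawOf] at h1 h2
    rw [h1, h2]

theorem sep_iff_raw {M N : Alg} (hM : One M) (hN : One N) :
    Sep M N ↔ H877R3.HSC.RA.Sep (rawOf M) (rawOf N) := by
  unfold Sep H877R3.HSC.RA.Sep
  simp only [isHom_iff_raw hM hN]

theorem raw_sep_tr {X Y X' Y' : Type} (R : H877R3.HSC.RA X) (e : X ≃ X') (S : H877R3.HSC.RA Y)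
    (f : Y ≃ Y') : H877R3.HSC.RA.Sep (tr R e) (tr S f) ↔ H877R3.HSC.RA.Sep R S := by
  constructor
  · intro h x y hxy
    obtain ⟨g, hg, hne⟩ := h (e x) (e y) (fun h => hxy (e.injective h))
    refine ⟨fun a => f.symm (g (e a)), ((isHom_tr_symm S f).comp hg).comp (isHom_tr R e), ?_⟩
    intro h
    exact hne (f.symm.injective h)
  · intro h x y hxy
    obtain ⟨g, hg, hne⟩ := h (e.symm x) (e.symm y) (fun h => hxy (e.symm.injective h))
    refine ⟨fun a => f (g (e.symm a)), ((isHom_tr S f).comp hg).comp (isHom_tr_symm R e), ?_⟩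
    intro h
    exact hne (f.injective h)

theorem one_algOf {X : Type} (R : H877R3.HSC.RA X) : One (algOf R) := rfl

theorem crit_iff {A : Type} [HeytingAlgebra A] {n : ℕ} (e : A ≃ Fin n) :
    Crit (ofHeyting A) n (n ^ (n ^ n)) ↔ CritRA (H877R3.HSC.toRA e) := by
  have hA := one_ofHeyting A
  let e' : (ofHeyting A).carrier ≃ Fin n := e
  have htr : H877R3.HSC.toRA e = tr (rawOf (ofHeyting A)) e' := rfl
  rw [htr]
  constructor
  · intro h m hm l hl B C hB hC ⟨g, gs, hg⟩
    have h1 : Sep (algOf B) (ofHeyting A) := (sep_iff_raw (one_algOf B) hA).2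
      ((raw_sep_tr B (Equiv.refl _) (rawOf (ofHeyting A)) e').1 hB)
    have h2 : Sep (algOf C) (ofHeyting A) := (sep_iff_raw (one_algOf C) hA).2
      ((raw_sep_tr C (Equiv.refl _) (rawOf (ofHeyting A)) e').1 hC)
    have hfB : Finite (algOf B).carrier := inferInstanceAs (Finite (Fin m))
    have hfC : Finite (algOf C).carrier := inferInstanceAs (Finite (Fin l))
    have hcB : Nat.card (algOf B).carrier = m := by
      change Nat.card (Fin m) = m
      simp
    have hcC : Nat.card (algOf C).carrier = l := by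
      change Nat.card (Fin l) = l
      simp
    have h3 := h (algOf B) (algOf C) hfB hfC (hcB.le.trans hm) (hcC.le.trans hl) h1 h2
      ⟨g, gs, (isHom_iff_raw (one_algOf C) (one_algOf B) g).2 hg⟩
    exact (sep_iff_raw (one_algOf B) (one_algOf C)).1 h3
  · intro h B C hfB hfC hcB hcC hB hC ⟨g, gs, hg⟩
    have oB := one_of_sep hB hA
    have oC := one_of_sep hC hA
    obtain ⟨m, ⟨eB⟩⟩ := Finite.exists_equiv_fin B.carrier
    obtain ⟨l, ⟨eC⟩⟩ := Finite.exists_equiv_fin C.carrier
    have hm : Nat.card B.carrier = m := by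
      rw [Nat.card_congr eB, Nat.card_eq_fintype_card, Fintype.card_fin]
    have hl : Nat.card C.carrier = l := by
      rw [Nat.card_congr eC, Nat.card_eq_fintype_card, Fintype.card_fin]
    have h1 := h m (hm ▸ hcB) l (hl ▸ hcC) (tr (rawOf B) eB) (tr (rawOf C) eC)
      ((raw_sep_tr _ _ _ _).2 ((sep_iff_raw oB hA).1 hB))
      ((raw_sep_tr _ _ _ _).2 ((sep_iff_raw oC hA).1 hC))
      ⟨fun x => eB (g (eC.symm x)), (eB.surjective.comp gs).comp eC.symm.surjective,
        ((isHom_tr (rawOf B) eB).comp ((isHom_iff_raw oC oB g).1 hg)).comp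
          (isHom_tr_symm (rawOf C) eC)⟩
    rw [raw_sep_tr] at h1
    exact (sep_iff_raw oB oC).2 h1

theorem primitive_iff {A : Type} [HeytingAlgebra A] {n : ℕ} (e : A ≃ Fin n) :
    Primitive (quasivarietyOf (ofHeyting A)) ↔ CritP (tables e) := by
  have hfin : Finite (ofHeyting A).carrier := Finite.of_equiv (Fin n) e.symm
  have hcard : Nat.card (ofHeyting A).carrier = n := by
    change Nat.card A = n
    rw [Nat.card_congr e, Nat.card_eq_fintype_card, Fintype.card_fin]
  have ht : tables e = H877R3.HSC.tables e := rfl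
  rw [ht, critP_iff, ← crit_iff]
  exact ⟨fun h => crit_of_primitive _ h _ _, primitive_of_crit _ hfin n hcard⟩

end Pool.Agent.W886.Prim
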